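import Pool.Agent.Q43.RP.DefsN
import Pool.Agent.Q43.RP.Mtl

/-!
# The Mumford-Tate conjecture for abelian varieties with one Frobenius torus of large rank

Let `A` be any abelian variety over a finitely generated subfield of the complex numbers (no condition
on the endomorphisms; factors of type IV are allowed). Suppose that at ONE place of good reduction, with
residue field of `q` elements, the characteristic polynomial of the Frobenius element is the product of
the minimal polynomials of Weil numbers `π i` in CM fields `K i`, `[K i : ℚ] ≥ 2 g` for all `i` (for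
instance one field of degree `2 g = 2 dim A`: the Frobenius polynomial is irreducible). Nothing is
assumed about the Galois groups of these fields or the slopes.

Let `D` be the defect: the rank of the group of the multiplicative relations between the Frobenius
eigenvalues, up to roots of unity and modulo the trivial relations `φ (π) conj (φ (π)) = q`
(`defect`). In other words, the Frobenius torus (the connected component of the Zariski closure of the
group generated by the Frobenius element) has rank `dim A + 1 - D`. For `D = 0`, a Frobenius torus of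
the largest possible rank, all Tate classes are generated by divisor classes and the Mumford-Tate
conjecture is known for `A` (Zarhin, Larsen-Pink and others).

1. If `4 D < g`, the Mumford-Tate conjecture holds for `A`: for the given `ℓ` all Tate classes in all
   the spaces `(H^1)^{⊗ 2 m}(m)` are linear combinations of Hodge classes (the converse is the
   theorem of Deligne). For irreducible Frobenius polynomials the condition is that the Frobenius torus
   has rank greater than `3 g / 4 + 1`, `g = dim A`.
2. If `2 m D < g`, `m ≥ 1`, all Tate classes in `(H^1)^{⊗ 2 j}(j)` with `j ≤ m`, in particular all Hodge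
   classes of codimension at most `m` on all powers of `A`, are linear combinations of products of
   Hodge classes of degree two.

The bound in 2 is optimal: for Mumford's fourfolds (`g = 4`, `End (A) = ℤ`) almost all Frobenius tori
have defect one, and there are exotic classes of codimension two on `A × A`; for abelian varieties of
Weil type (`D = 1` in general) there are exotic classes of codimension `g / 2`.

The proof: the relations span a space of functions of dimension `D` on the set of the embeddings of the
fields `K i` which is invariant under the Galois group, so the value of such a function at a point is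
at most `D / (2 g)` times its norm of order one; a relation between `k` eigenvalues gives a function
with integral values and norm at most `2 k`. So relations of length `k` with `k D < g` are trivial. For
1 one uses the case `k = 4` and a starting result (MP_6c781a_ag `FourTermAllTypes`), for 2 the Lie
algebra of the endomorphisms annihilating all Tate classes in at most `2 m` variables: it contains the
diagonal elements of the symplectic Lie algebra, and by semisimplicity it is a product of symplectic
and general linear Lie algebras.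

In the Lean statement `H` is `H_1(A, ℚ)`, `T` the tangent space at the origin, `per : H → T` the
inclusion; `ρ`, `χ`, `ω` are the Galois representation on the Tate module `ℚ_ℓ ⊗ H`, the cyclotomic
character and the Weil pairing (`IsAbelianVariety`; this contains the theorems of Faltings, the
theorem of Deligne and the theorem on centres of Vasiu, Ullmo and Yafaev).
-/

set_option autoImplicit false

namespace Pool.Agent.Results.MP_c1bb77_ag.LargeFrobeniusTorus

open NumberField Module TensorProduct Pool.Agent.H204R3.GP Pool.Agent.W516.MTD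
  Pool.Agent.TH776.FM

/-- **The Mumford-Tate conjecture for abelian varieties with one Frobenius torus of rank greater than
`3 g / 4 + 1`**, and the generation of the classes of codimension less than `g / (2 D)` by those of
degree two. -/
theorem result {I : Type} [Fintype I] (K : I → Type) [∀ i, Field (K i)] [∀ i, NumberField (K i)]
    [∀ i, IsCMField (K i)] (q : ℕ) (hq : 0 < q) (π : ∀ i, K i)
    (hweil : ∀ i, ∀ φ : K i →+* ℂ, ‖φ (π i)‖ ^ 2 = (q : ℝ)) (g : ℕ)
    (hg : ∀ i, 2 * g ≤ finrank ℚ (K i)) (ℓ : ℕ) [Fact ℓ.Prime]
    {H T Γ : Type} [AddCommGroup H] [Module ℚ H] [FiniteDimensional ℚ H]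
    [AddCommGroup T] [Module ℂ T] [Group Γ] (per : H →+ T) (ω₀ : H →ₗ[ℚ] H →ₗ[ℚ] ℚ)
    (ρ : Representation ℚ_[ℓ] Γ (ℚ_[ℓ] ⊗[ℚ] H)) (χ : Γ →* ℚ_[ℓ])
    (ω : ℚ_[ℓ] ⊗[ℚ] H →ₗ[ℚ_[ℓ]] ℚ_[ℓ] ⊗[ℚ] H →ₗ[ℚ_[ℓ]] ℚ_[ℓ])
    (hA : IsAbelianVariety per ω₀ ρ χ ω) (γ : Γ) (hχ : χ γ = q)
    (hγ : (ρ γ).charpoly = (∏ i, minpoly ℚ (π i)).map (algebraMap ℚ ℚ_[ℓ])) :
    (4 * Pool.Agent.Q43.RP.defect K π < g →
      ∀ (m : ℕ) (φ : MultilinearMap ℚ_[ℓ] (fun _ : Fin m × Fin 2 => ℚ_[ℓ] ⊗[ℚ] H) ℚ_[ℓ]),
        IsTateTensor ρ χ m φ → IsHodgeCombination per φ) ∧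
    ∀ m : ℕ, 1 ≤ m → 2 * m * Pool.Agent.Q43.RP.defect K π < g →
      ∀ j ≤ m, ∀ φ : MultilinearMap ℚ_[ℓ] (fun _ : Fin j × Fin 2 => ℚ_[ℓ] ⊗[ℚ] H) ℚ_[ℓ],
        IsTateTensor ρ χ j φ →
        φ ∈ Submodule.span ℚ_[ℓ]
          {φ' : MultilinearMap ℚ_[ℓ] (fun _ : Fin j × Fin 2 => ℚ_[ℓ] ⊗[ℚ] H) ℚ_[ℓ] |
            ∃ ψ : MultilinearMap ℚ (fun _ : Fin j × Fin 2 => H) ℚ, IsHodgeTensor per ψ ∧
              IsProductOfHodgeBilinear per ψ ∧
              ∀ v : Fin j × Fin 2 → H, φ' (fun l => (1 : ℚ_[ℓ]) ⊗ₜ[ℚ] v l) =
                ((ψ v : ℚ) : ℚ_[ℓ])} := by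
  have hq' : (0 : ℚ) < (q : ℚ) := Nat.cast_pos.2 hq
  have hweil' : ∀ i, ∀ φ : K i →+* ℂ, ‖φ (π i)‖ ^ 2 = (((q : ℚ) : ℝ)) := by
    intro i φ
    rw [hweil]
    norm_cast
  have hD : Pool.Agent.Q43.RP.defect K π =
      finrank ℤ (Pool.Agent.Q43.RP.relLat K π) := rfl
  refine ⟨fun h4 m φ hφ => ?_, fun m hm hmD j hj φ hφ => ?_⟩
  · refine Pool.Agent.Q43.RP.mt_free K hq π hweil
      (Pool.Agent.Q43.RP.shortFree_of_defect K hg hq' π hweil' ?_) hA γ hχ hγ m φ hφ
    rw [← hD]
    omega
  · refine Pool.Agent.Q43.RP.hodge_low K hq' π hweil' hm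
      (Pool.Agent.Q43.RP.shortFree_of_defect K hg hq' π hweil' ?_) hA γ ?_ hγ hj φ hφ
    · rw [← hD, mul_comm]
      exact hmD
    · rw [hχ]
      norm_cast

end Pool.Agent.Results.MP_c1bb77_ag.LargeFrobeniusTorus
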