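import Pool.Agent.Q45.OI.Core
import Pool.Agent.Q45.OI.K.LB
import Pool.Agent.Q45.OI.K.LC
import Pool.Agent.Q45.OI.J.ORTH
import Pool.Agent.Q45.OI.J.LEMX
import Pool.Agent.Q45.OI.J.LARGE

/-!
# Open image for double planes with a large Galois group on the branch curve

Let `k` be a field of characteristic different from `2`, with separable closure `k'`, and let
`P(t, x)` be a polynomial over `k`, monic of odd degree in `x`, such that the plane curve
`C : P(t, x) = 0` is smooth, irreducible over `k'` and separable over the `t`-line. Let `X` be the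
double plane `w ^ 2 = P(t, x)` with branch curve `C`, `J` the Jacobian of the hyperelliptic curve
`w ^ 2 = P(t, x)` over `K = k(t)`, `F = k'(t)`, and `M` the `ℤ_2`-module of the classes of the
continuous cocycles of `Gal(Sep F / F)` with values in the Tate module `T_2 J` which are locally trivial
at all the maximal ideals of `k'[t]`. The group of the automorphisms of the separable closure of `F` over
`K` acts on `M`, through `Gal(k' / k)`.

Let `S` be the ring of the functions on `C` over `k'`, `L` its field of fractions, and `V` the group of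
the elements of `Lˣ` whose fractional ideal is a square, modulo the squares; if `C` has a single
place at infinity then `V` is the group of the points of order `2` of the Jacobian of `C`. Suppose that
`V` is finite, and let `Γ` be the group of the automorphisms of `V` induced by the automorphisms of `L`
which fix the polynomials in `t` and `x` over `k`.

(1) Let `Γ` be large: `Γ` is irreducible, its subgroups of index at most two commute only with the
endomorphisms `0` and `1` of `V`, and the `Γ`-stable spaces of skew endomorphisms of an invariant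
nondegenerate alternating form consist of scalars or have codimension at most one. Let `β` be an
invariant symmetric bilinear form different from zero on `M`. Then either the only element of the image
of the group in `Aut M` which is congruent to `1` modulo `4` is `1`, so the image is finite, or the image is
open in the orthogonal group of `β`: for every finite extension `E` of `k` in `k'`, the closure of the
image of the group of the automorphisms which fix `E` contains all the automorphisms `α` of `(M, β)`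
which are congruent to `1` modulo a power of `2`.

(2) `Γ` is large if it contains the transvections `x ↦ x + b(x, v) v`, for the vectors `v` with
`Q(v) = 1`, of a quadratic form `Q` on `V` with a nondegenerate polar form `b`, and the dimension of
`V` is at least `6`.
-/

set_option autoImplicit false
set_option linter.all false

open Polynomial IsDedekindDomain
open scoped Classical nonZeroDivisors

namespace Pool.Agent.Results.MP_c1bb77_ag.OpenImageDoublePlanes

open Pool.Agent.Y160.SL
open Pool.Agent.TH115.GD (rs ak Sep Comp)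

/-- The derivative with respect to `t` of the polynomial `P(t, x)` in `k[t][x]`. -/
noncomputable def derivT {k : Type} [Field k] (P : k[X][X]) : k[X][X] :=
  P.sum fun i a => C (derivative a) * X ^ i

/-- The conditions on the curve `P(t, x) = 0` over `k`: `P` is monic of odd degree in `x`, the curve is
smooth and separable over the `t`-line. -/
structure IsSmoothCurve {k : Type} [Field k] (P : k[X][X]) : Prop where
  two : (2 : k) ≠ 0
  monic : P.Monic
  odd : Odd P.natDegree
  separable : derivative P ≠ 0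
  smooth : ∃ a₁ a₂ a₃ : k[X][X], a₁ * P + a₂ * derivative P + a₃ * derivT P = 1

/-- The polynomial `P(t, x)` over `k'`. -/
noncomputable def extendPoly {k : Type} [Field k] (k' : Type) [Field k'] [Algebra k k']
    (P : k[X][X]) : k'[X][X] := P.map (mapRingHom (algebraMap k k'))

/-- The ring of the functions on the curve `P(t, x) = 0` over `k'`. -/
abbrev CurveRing {k : Type} [Field k] (k' : Type) [Field k'] [Algebra k k'] (P : k[X][X]) : Type :=
  AdjoinRoot (extendPoly k' P)

/-- The polynomial `P(t, x)` over the field `K` which contains `k[t]`. -/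
noncomputable def fPoly {k : Type} [Field k] (P : k[X][X]) (K : Type) [Field K] [Algebra k[X] K] :
    K[X] := P.map (algebraMap k[X] K)

section curve

/-- The elements of `Lˣ` whose fractional ideal is a square. -/
def evenGroup (S L : Type) [CommRing S] [IsDedekindDomain S] [Field L] [Algebra S L]
    [IsFractionRing S L] : Subgroup Lˣ where
  carrier := {z | ∃ I : FractionalIdeal S⁰ L, FractionalIdeal.spanSingleton S⁰ (z : L) = I ^ 2}
  mul_mem' := (Pool.Agent.Q45.GM.evS S L).mul_mem'
  one_mem' := (Pool.Agent.Q45.GM.evS S L).one_mem'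
  inv_mem' := (Pool.Agent.Q45.GM.evS S L).inv_mem'

/-- The squares. -/
def squares (L : Type) [Field L] : Subgroup Lˣ := (powMonoidHom 2 : Lˣ →* Lˣ).range

variable {k : Type} [Field k] (k' : Type) [Field k'] [Algebra k k'] (P : k[X][X])
  (L : Type) [Field L] [Algebra (CurveRing k' P) L]

/-- The automorphism `e` of `L` fixes the polynomials in `t` and `x` over `k`. -/
def FixesPolys (e : L ≃+* L) : Prop :=
  ∀ p : k[X][X], e (algebraMap (CurveRing k' P) L (AdjoinRoot.mk _ (extendPoly k' p))) =
    algebraMap (CurveRing k' P) L (AdjoinRoot.mk _ (extendPoly k' p))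

/-- The automorphisms of `Lˣ` induced by the automorphisms of `L` which fix the polynomials in `t` and
`x` over `k`. -/
def autUnits : Set (Lˣ →* Lˣ) :=
  {φ | ∃ e : L ≃+* L, FixesPolys k' P L e ∧ φ = Units.map (e : L →* L)}

end curve

/-- The finite group `V` is the quotient `Ev / Sq`, through the map `cl`, and `Γ` is the group of the
automorphisms of `V` which are induced by the endomorphisms in `E`. -/
structure IsGaloisModule {H : Type} [CommGroup H] (Sq Ev : Subgroup H) (E : Set (H →* H)) {V : Type}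
    [AddCommGroup V] (cl : H → V) (Γ : Subgroup (AddMonoid.End V)ˣ) : Prop where
  add : ∀ z ∈ Ev, ∀ w ∈ Ev, cl (z * w) = cl z + cl w
  zero : ∀ z ∈ Ev, cl z = 0 ↔ z ∈ Sq
  surj : ∀ v, ∃ z ∈ Ev, cl z = v
  toGroup : ∀ e ∈ E, ∃ g ∈ Γ, ∀ z ∈ Ev, cl (e z) = g.val (cl z)
  ofGroup : ∀ g ∈ Γ, ∃ e ∈ E, ∀ z ∈ Ev, cl (e z) = g.val (cl z)

section large

variable {V : Type} [AddCommGroup V] (Γ : Subgroup (AddMonoid.End V)ˣ)

/-- The stable subgroups of `V` are `0` and `V`. -/
def IsIrreducibleGroup : Prop :=
  ∀ U : AddSubgroup V, (∀ g ∈ Γ, ∀ v ∈ U, g.val v ∈ U) → U = ⊥ ∨ U = ⊤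

/-- The endomorphism `A` is `0` or `1`. -/
def IsScalar (A : V →+ V) : Prop := (∀ v, A v = 0) ∨ ∀ v, A v = v

/-- The endomorphisms of `V` which commute with `Γ` are `0` and `1`. -/
def HasScalarCommutant : Prop :=
  ∀ A : V →+ V, (∀ g ∈ Γ, ∀ v, A (g.val v) = g.val (A v)) → IsScalar A

/-- `β` is a nondegenerate alternating form on `V`, invariant under `Γ`. -/
structure IsAlternatingForm (β : V → V → ZMod 2) : Prop where
  add : ∀ u v w, β (u + v) w = β u w + β v w
  add' : ∀ u v w, β u (v + w) = β u v + β u w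
  alt : ∀ v, β v v = 0
  nondegenerate : ∀ v, (∀ w, β v w = 0) → v = 0
  inv : ∀ g ∈ Γ, ∀ v w, β (g.val v) (g.val w) = β v w

/-- The group `U` of endomorphisms is stable under conjugation by `Γ`. -/
def IsStable (U : AddSubgroup (V →+ V)) : Prop :=
  ∀ g ∈ Γ, ∀ A ∈ U, ∀ A' : V →+ V, (∀ v, A' (g.val v) = g.val (A v)) → A' ∈ U

/-- For each invariant form `β`, a stable group of endomorphisms `A` with `β (A v) v = 0` is contained in
`{0, 1}` or has index at most two in the group of all such endomorphisms. -/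
def HasFewSkew : Prop :=
  ∀ β : V → V → ZMod 2, IsAlternatingForm Γ β → ∀ U : AddSubgroup (V →+ V),
    (∀ A ∈ U, ∀ v, β (A v) v = 0) → IsStable Γ U →
      (∀ A ∈ U, IsScalar A) ∨ Nat.card {A : V →+ V // ∀ v, β (A v) v = 0} ≤ 2 * Nat.card U

/-- The group `Γ` is large. -/
structure IsLarge : Prop where
  irreducible : IsIrreducibleGroup Γ
  scalar : ∀ Γ' : Subgroup (AddMonoid.End V)ˣ, Γ' ≤ Γ → Γ'.relIndex Γ ∣ 2 → HasScalarCommutant Γ'
  skew : HasFewSkew Γ

/-- The polar form of `q`. -/
def polarForm (q : V → ZMod 2) (x y : V) : ZMod 2 := q (x + y) + q x + q y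

/-- `q` is a nondegenerate quadratic form on `V`. -/
structure IsQuadratic (q : V → ZMod 2) : Prop where
  add : ∀ x y z, polarForm q (x + y) z = polarForm q x z + polarForm q y z
  nondegenerate : ∀ x, (∀ y, polarForm q x y = 0) → x = 0

/-- `V` has at least `64` elements, and `Γ` contains the transvections in the vectors `v` with `q v = 1`, for
a nondegenerate quadratic form `q` on `V`. -/
def HasTransvections : Prop :=
  64 ≤ Nat.card V ∧ ∃ q : V → ZMod 2, IsQuadratic q ∧
    ∀ v, q v = 1 → ∃ t ∈ Γ, ∀ x, t.val x = if polarForm q x v = 0 then x else x + v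

end large

section gen

variable {K F Ω : Type} [Field K] [Field F] [Field Ω] [Algebra K F] [Algebra F Ω] [Algebra K Ω]
  [IsScalarTower K F Ω] (f : K[X])

/-- The sequences of cochains of `Gal(Ω / F)` with values in `J(Ω)`. -/
abbrev Cochain (F Ω : Type) [Field F] [Field Ω] [Algebra K Ω] [Algebra F Ω] (f : K[X]) : Type :=
  ℕ → (Ω ≃ₐ[F] Ω) → Jac 2 f Ω

/-- `c` is the coboundary of an element `R` of the Tate module `T_2 J`. -/
def IsTateCoboundary (c : Cochain F Ω f) : Prop :=
  ∃ R : ℕ → Jac 2 f Ω, IsTM 2 2 f R ∧ ∀ n, IsCobOf 2 f (c n) (R n)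

/-- The map `κ` identifies with `M` the group of the classes of the cocycles with the property `P`:
it is additive and surjective on these cocycles, and `κ c = 0` if and only if `c` is the coboundary of
an element of the Tate module. -/
structure IsClassMap (P : Cochain F Ω f → Prop) (M : Type) [AddCommGroup M]
    (κ : Cochain F Ω f → M) : Prop where
  surj : ∀ m, ∃ c, P c ∧ κ c = m
  add : ∀ c d, P c → P d → κ (c + d) = κ c + κ d
  zero : ∀ c, P c → (κ c = 0 ↔ IsTateCoboundary f c)

/-- `d` is the transform of the cochain `c` by the automorphism `T` of `Ω` over `K`: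
`d (σ) = T (c (σ'))`, where `σ' = T⁻¹ σ T`. -/
def IsTransform (T : Ω ≃ₐ[K] Ω) (c d : Cochain F Ω f) : Prop :=
  ∀ n (σ σ' : Ω ≃ₐ[F] Ω), (∀ x, T (σ' x) = σ (T x)) → d n σ = jm 2 f (ak T) (c n σ')

/-- The endomorphism `φ` of `M` is induced by the automorphism `T` of `Ω` over `K`. -/
def IsInduced (P : Cochain F Ω f → Prop) {M : Type} (κ : Cochain F Ω f → M) (T : Ω ≃ₐ[K] Ω)
    (φ : M → M) : Prop :=
  ∀ c d, P c → IsTransform f T c d → P d ∧ κ d = φ (κ c)

end gen

section rep

variable {G M : Type} [Group G] [AddCommGroup M] [Module ℤ_[2] M] (A : G → (M →ₗ[ℤ_[2]] M) → Prop)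
  (β : M → M → ℤ_[2])

/-- `β` is a symmetric bilinear form different from zero on `M` which is invariant under the action; `A T φ`
means that `T` in the group `G` acts on `M` as `φ`. -/
structure IsInvariantForm : Prop where
  add : ∀ x y z, β (x + y) z = β x z + β y z
  smul : ∀ (c : ℤ_[2]) x y, β (c • x) y = c * β x y
  symm : ∀ x y, β x y = β y x
  ne : ∃ x y, β x y ≠ 0
  inv : ∀ T φ, A T φ → ∀ x y, β (φ x) (φ y) = β x y

/-- The only element of the image of `G` which is congruent to `1` modulo `4` is `1`. -/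
def HasFiniteImage : Prop :=
  ∀ T φ, A T φ → (∀ m, ∃ m', φ m - m = (4 : ℤ_[2]) • m') → ∀ m, φ m = m

/-- The closure of the image of the set `N` contains all the automorphisms `α` of `(M, β)` which are
congruent to `1` modulo some power of `2`. -/
def HasOpenImage (N : Set G) : Prop :=
  ∃ j : ℕ, ∀ α : M ≃ₗ[ℤ_[2]] M, (∀ x y, β (α x) (α y) = β x y) →
    (∀ m, ∃ m', α m - m = (2 : ℤ_[2]) ^ j • m') →
      ∀ n : ℕ, ∃ T ∈ N, ∃ φ, A T φ ∧ ∀ m, ∃ m', φ m - α m = (2 : ℤ_[2]) ^ n • m'

end rep

section sel

variable {K F : Type} [Field K] [Field F] [Algebra K F] (B : Type) [CommRing B] [IsDedekindDomain B]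
  [Algebra B F] [IsFractionRing B F] (f : K[X])

/-- The restriction of the cochain `c` to the completion of `F` at every maximal ideal of the Dedekind
domain `B` with field of fractions `F` is a coboundary. -/
def IsSelmer (c : (Sep F ≃ₐ[F] Sep F) → Jac 2 f (Sep F)) : Prop :=
  ∀ v : HeightOneSpectrum B, LocTriv 2 f (Comp B F v) (Sep (Comp B F v)) c

/-- `c` is a continuous cocycle of `Gal(Sep F / F)` with values in the Tate module `T_2 J` which is
locally trivial at all the maximal ideals of the Dedekind domain `B` with field of fractions `F`; its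
component with values in `J[2 ^ n]` is `c n`. -/
def IsSelmerCocycle (c : Cochain F (Sep F) f) : Prop :=
  IsTC 2 2 f c ∧ ∀ n, IsSelmer B f (c n)

/-- The automorphism `T` of `Sep F` over `K` acts on the module of the classes as `φ`. -/
def ActsAs {M : Type} [AddCommGroup M] [Module ℤ_[2] M] (κ : Cochain F (Sep F) f → M)
    (T : Sep F ≃ₐ[K] Sep F) (φ : M →ₗ[ℤ_[2]] M) : Prop :=
  IsInduced f (IsSelmerCocycle B f) κ T φ

/-- The automorphisms `T` of `Sep F` over `K` which fix the extension `E` of `k`. -/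
def fixing {k k' : Type} [Field k] [Field k'] [Algebra k k'] [Algebra k'[X] F]
    (E : IntermediateField k k') : Set (Sep F ≃ₐ[K] Sep F) :=
  {T | ∀ x ∈ E, T (algebraMap F (Sep F) (algebraMap k'[X] F (C x))) =
    algebraMap F (Sep F) (algebraMap k'[X] F (C x))}

/-- The module `M` of the classes, with the action on it, has the property `R`. -/
def Concl (R : ∀ (M : Type) [AddCommGroup M] [Module ℤ_[2] M],
    ((Sep F ≃ₐ[K] Sep F) → (M →ₗ[ℤ_[2]] M) → Prop) → Prop) : Prop :=
  ∃ (M : Type) (_ : AddCommGroup M) (_ : Module ℤ_[2] M) (_ : Module.Finite ℤ_[2] M)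
    (_ : Module.Free ℤ_[2] M) (κ : Cochain F (Sep F) f → M),
    IsClassMap f (IsSelmerCocycle B f) M κ ∧
    (∀ T : Sep F ≃ₐ[K] Sep F, ∃ φ : M →ₗ[ℤ_[2]] M, ActsAs B f κ T φ) ∧ R M (ActsAs B f κ)

end sel

/-- (1) The theorem on the image. -/
def OpenImage : Prop :=
  ∀ (k k' K F L V : Type) [Field k] [Field k'] [Algebra k k'] [IsSepClosure k k'] [Field K]
    [Algebra k[X] K] [IsFractionRing k[X] K] [Field F] [Algebra k'[X] F] [IsFractionRing k'[X] F]
    [Algebra K F] (P : k[X][X]) [IsDedekindDomain (CurveRing k' P)] [Field L]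
    [Algebra (CurveRing k' P) L] [IsFractionRing (CurveRing k' P) L] [AddCommGroup V] [Finite V]
    (cl : Lˣ → V) (Γ : Subgroup (AddMonoid.End V)ˣ),
    (∀ p : k[X], algebraMap K F (algebraMap k[X] K p) =
      algebraMap k'[X] F (p.map (algebraMap k k'))) →
    IsSmoothCurve P →
    IsGaloisModule (squares L) (evenGroup (CurveRing k' P) L) (autUnits k' P L) cl Γ →
    IsLarge Γ →
      Concl (F := F) k'[X] (fPoly P K) fun M _ _ A =>
        ∀ β : M → M → ℤ_[2], IsInvariantForm A β →
          HasFiniteImage A ∨ ∀ (E : IntermediateField k k') [FiniteDimensional k E],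
            HasOpenImage A β (fixing E)

/-- (2) The criterion with transvections. -/
def Transvections : Prop :=
  ∀ (V : Type) [AddCommGroup V] [Finite V] (Γ : Subgroup (AddMonoid.End V)ˣ),
    HasTransvections Γ → IsLarge Γ

open Pool.Agent.Q45.GM (SelT clsOf clsOf_surj clsOf_add clsOf_zero rho rho_cls rho_mul isGeom_rat
  IsBr with_dp evS sqS Fixes FixP exists_tau cs cs_apply)

section conv

variable {K F : Type} [Field K] [Field F] [Algebra K F] {B : Type} [CommRing B] [IsDedekindDomain B]
  [Algebra B F] [IsFractionRing B F] {f : K[X]}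

theorem toTC {c : Cochain F (Sep F) f} (h : IsTC 2 2 f c) : Pool.Agent.Y160.SQ.IsTC 2 2 f c :=
  ⟨fun n => ⟨(h.coc n).lc, (h.coc n).mul⟩, h.zero, h.step⟩

theorem ofTC {c : Cochain F (Sep F) f} (h : Pool.Agent.Y160.SQ.IsTC 2 2 f c) : IsTC 2 2 f c :=
  ⟨fun n => ⟨(h.coc n).lc, (h.coc n).mul⟩, h.zero, h.step⟩

/-- The classes of the cocycles. -/
theorem classMap : IsClassMap f (IsSelmerCocycle B f) (SelT (F := F) 2 B f 2) (clsOf B f) where
  surj m := by
    obtain ⟨c, ⟨h1, h2⟩, h3⟩ := clsOf_surj B f m
    exact ⟨c, ⟨ofTC h1, h2⟩, h3⟩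
  add c d hc hd := clsOf_add B f (toTC hc.1) hc.2 (toTC hd.1) hd.2
  zero c hc := by
    refine (clsOf_zero B f (toTC hc.1) hc.2).trans ⟨?_, ?_⟩
    · rintro ⟨R, hR, h⟩
      exact ⟨R, ⟨hR.zero, hR.step⟩, h⟩
    · rintro ⟨R, hR, h⟩
      exact ⟨R, ⟨hR.zero, hR.step⟩, h⟩

end conv


section acts

variable {k k' K F : Type} [Field k] [Field k'] [Algebra k k'] [IsSepClosed k']
  [Algebra.IsSeparable k k'] [Field K] [Algebra k[X] K] [Field F] [Algebra k'[X] F] [Algebra K F]

theorem acts_iff [IsFractionRing k'[X] F] (hF' : Pool.Agent.Q45.TW.IsGeom k k' K F) (f : K[X])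
    (T : Sep F ≃ₐ[K] Sep F)
    (φ : SelT (F := F) 2 k'[X] f 2 →ₗ[ℤ_[2]] SelT (F := F) 2 k'[X] f 2) :
    ActsAs k'[X] f (clsOf k'[X] f) T φ ↔ φ = rho k'[X] hF' f T := by
  constructor
  · intro h
    refine LinearMap.ext fun m => ?_
    obtain ⟨c, ⟨hc, hcs⟩, rfl⟩ := clsOf_surj k'[X] f m
    have hcj := Pool.Agent.Q45.GM.lf_T k'[X] hF' f T
    have hd : IsTransform f T c (fun n σ => jm 2 f (ak T)
        (c n ((Pool.Agent.Q45.GM.lf k'[X] hF' f T).conj σ))) := by
      intro n σ σ' hσ
      have h5 : (Pool.Agent.Q45.GM.lf k'[X] hF' f T).conj σ = σ' := by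
        refine AlgEquiv.ext fun x => T.injective ?_
        rw [hσ]
        have h6 := (Pool.Agent.Q45.GM.lf k'[X] hF' f T).T_conj σ x
        rwa [hcj] at h6
      have h8 : ∀ ρ : Sep F ≃ₐ[F] Sep F, ρ = σ' →
          jm 2 f (ak T) (c n ρ) = jm 2 f (ak T) (c n σ') := by
        rintro ρ rfl
        rfl
      exact h8 _ h5
    have h7 := (h c _ ⟨ofTC hc, hcs⟩ hd).2
    rw [← h7]
    exact (rho_cls k'[X] hF' f T hc hcs hd).2
  · rintro rfl c d hc hd
    obtain ⟨⟨h4, h5⟩, h6⟩ := rho_cls k'[X] hF' f T (toTC hc.1) hc.2 hd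
    exact ⟨⟨ofTC h4, h5⟩, h6⟩

end acts

section convert

variable {V : Type} [AddCommGroup V] [Module (ZMod 2) V]

/-- An additive automorphism is linear. -/
noncomputable def toLin (g : (AddMonoid.End V)ˣ) : V ≃ₗ[ZMod 2] V :=
  { AddMonoidHom.toZModLinearMap 2 (g.val : V →+ V) with
    invFun := fun v => (g⁻¹).val v
    left_inv := fun v => by
      show (g⁻¹).val (g.val v) = v
      have h1 := DFunLike.congr_fun (Units.inv_mul g) v
      exact h1
    right_inv := fun v => by
      show g.val ((g⁻¹).val v) = v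
      have h1 := DFunLike.congr_fun (Units.mul_inv g) v
      exact h1 }

theorem toLin_apply (g : (AddMonoid.End V)ˣ) (v : V) : toLin g v = g.val v := rfl

/-- A linear automorphism is additive. -/
def toAdd : (V ≃ₗ[ZMod 2] V) →* (AddMonoid.End V)ˣ where
  toFun e := ⟨e.toLinearMap.toAddMonoidHom, e.symm.toLinearMap.toAddMonoidHom,
    AddMonoidHom.ext fun v => e.apply_symm_apply v, AddMonoidHom.ext fun v => e.symm_apply_apply v⟩
  map_one' := rfl
  map_mul' _ _ := rfl

theorem toAdd_apply (e : V ≃ₗ[ZMod 2] V) (v : V) : (toAdd e).val v = e v := rfl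

theorem toAdd_toLin (g : (AddMonoid.End V)ˣ) : toAdd (toLin g) = g :=
  Units.ext (AddMonoidHom.ext fun v => rfl)

theorem toLin_toAdd (e : V ≃ₗ[ZMod 2] V) : toLin (toAdd e) = e := LinearEquiv.ext fun v => rfl

/-- The group of linear automorphisms. -/
def linGroup (Γ : Subgroup (AddMonoid.End V)ˣ) : Subgroup (V ≃ₗ[ZMod 2] V) := Γ.comap toAdd

theorem mem_linGroup {Γ : Subgroup (AddMonoid.End V)ˣ} {e : V ≃ₗ[ZMod 2] V} :
    e ∈ linGroup Γ ↔ toAdd e ∈ Γ := Iff.rfl

theorem map_linGroup (Γ : Subgroup (AddMonoid.End V)ˣ) : (linGroup Γ).map toAdd = Γ :=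
  Subgroup.map_comap_eq_self_of_surjective (fun g => ⟨toLin g, toAdd_toLin g⟩) Γ

/-- The groups of additive and of linear endomorphisms. -/
def toAddSub (U : Submodule (ZMod 2) (V →ₗ[ZMod 2] V)) : AddSubgroup (V →+ V) where
  carrier := {A | ∃ B ∈ U, ∀ v, A v = B v}
  add_mem' := by
    rintro _ _ ⟨B, hB, h⟩ ⟨B', hB', h'⟩
    exact ⟨B + B', U.add_mem hB hB', fun v => by
      rw [AddMonoidHom.add_apply, LinearMap.add_apply, h, h']⟩
  zero_mem' := ⟨0, U.zero_mem, fun v => rfl⟩
  neg_mem' := by
    rintro _ ⟨B, hB, h⟩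
    exact ⟨-B, U.neg_mem hB, fun v => by
      rw [AddMonoidHom.neg_apply, LinearMap.neg_apply, h]⟩

/-- The groups of additive and of linear endomorphisms. -/
def toLinSub (U : AddSubgroup (V →+ V)) : Submodule (ZMod 2) (V →ₗ[ZMod 2] V) :=
  AddSubgroup.toZModSubmodule 2 (U.comap
    { toFun := fun B : V →ₗ[ZMod 2] V => B.toAddMonoidHom
      map_zero' := rfl
      map_add' := fun _ _ => rfl })

theorem mem_toLinSub {U : AddSubgroup (V →+ V)} {B : V →ₗ[ZMod 2] V} :
    B ∈ toLinSub U ↔ B.toAddMonoidHom ∈ U := Iff.rfl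

/-- The bijection between the additive and the linear endomorphisms. -/
def endEquiv : (V →+ V) ≃ (V →ₗ[ZMod 2] V) where
  toFun A := AddMonoidHom.toZModLinearMap 2 A
  invFun B := B.toAddMonoidHom
  left_inv A := AddMonoidHom.ext fun v => rfl
  right_inv B := LinearMap.ext fun v => rfl

theorem card_toLinSub (U : AddSubgroup (V →+ V)) : Nat.card (toLinSub U) = Nat.card U := by
  refine Nat.card_congr (Equiv.subtypeEquiv endEquiv.symm fun B => ?_)
  exact mem_toLinSub

theorem card_toAddSub (U : Submodule (ZMod 2) (V →ₗ[ZMod 2] V)) :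
    Nat.card (toAddSub U) = Nat.card U := by
  refine Nat.card_congr (Equiv.subtypeEquiv endEquiv fun A => ?_)
  constructor
  · rintro ⟨B, hB, h⟩
    have h1 : endEquiv A = B := LinearMap.ext fun v => h v
    rw [h1]
    exact hB
  · intro h
    exact ⟨endEquiv A, h, fun v => rfl⟩

theorem card_skew (β : V →ₗ[ZMod 2] V →ₗ[ZMod 2] ZMod 2) :
    Nat.card {A : V →+ V // ∀ v, β (A v) v = 0} = Nat.card (Pool.Agent.Q45.OI.skewEnd β) :=
  Nat.card_congr (Equiv.subtypeEquiv endEquiv fun A => Iff.rfl)

theorem scalar_iff (A : V →+ V) (B : V →ₗ[ZMod 2] V) (h : ∀ v, A v = B v) :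
    IsScalar A ↔ B = 0 ∨ B = 1 := by
  constructor
  · rintro (h1 | h1)
    · left
      exact LinearMap.ext fun v => by rw [← h, h1]; rfl
    · right
      exact LinearMap.ext fun v => by rw [← h, h1]; rfl
  · rintro (rfl | rfl)
    · left
      exact fun v => h v
    · right
      exact fun v => h v

variable [Module.Finite (ZMod 2) V] {Γ : Subgroup (AddMonoid.End V)ˣ}

theorem finrank_le (U W : Submodule (ZMod 2) (V →ₗ[ZMod 2] V)) :
    Nat.card U ≤ 2 * Nat.card W ↔
      Module.finrank (ZMod 2) U ≤ Module.finrank (ZMod 2) W + 1 := by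
  rw [Module.natCard_eq_pow_finrank (K := ZMod 2) (V := U),
    Module.natCard_eq_pow_finrank (K := ZMod 2) (V := W), Nat.card_zmod, ← pow_succ']
  exact Nat.pow_le_pow_iff_right (by norm_num)

theorem large_lin (h : IsLarge Γ) : Pool.Agent.Q45.OI.IsLarge (linGroup Γ) where
  irr U hU := by
    rcases h.irreducible U.toAddSubgroup (fun g hg v hv => hU (toLin g)
      (by rw [mem_linGroup, toAdd_toLin]; exact hg) v hv) with h1 | h1
    · left
      ext v
      exact SetLike.ext_iff.1 h1 v
    · right
      ext v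
      exact SetLike.ext_iff.1 h1 v
  scal Γ' hΓ' hi A hA := by
    have h1 := h.scalar (Γ'.map toAdd) (by
      rintro _ ⟨e, he, rfl⟩
      exact hΓ' he) (by
      have h2 := Pool.Agent.Q45.OI.relIndex_map_dvd (toAdd (V := V)) Γ' (linGroup Γ) hΓ'
      rw [map_linGroup] at h2
      exact h2.trans hi) A.toAddMonoidHom (by
      rintro _ ⟨e, he, rfl⟩ v
      exact hA e he v)
    exact (scalar_iff A.toAddMonoidHom A fun v => rfl).1 h1
  skew β halt hnd hinv U hU hst := by
    rcases h.skew (fun v w => β v w) ⟨fun u v w => by rw [map_add]; rfl, fun u v w => by rw [map_add],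
        halt, hnd, fun g hg v w => hinv (toLin g) (by rw [mem_linGroup, toAdd_toLin]; exact hg) v w⟩
        (toAddSub U) (by
          rintro A ⟨B, hB, hAB⟩ v
          rw [hAB]
          exact hU hB v) (by
          rintro g hg A ⟨B, hB, hAB⟩ A' hA'
          refine ⟨AddMonoidHom.toZModLinearMap 2 A', ?_, fun v => rfl⟩
          refine hst (toLin g) (by rw [mem_linGroup, toAdd_toLin]; exact hg) B hB _ fun v => ?_
          have h2 := hA' v
          rw [hAB] at h2
          exact h2) with h1 | h1
    · left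
      intro B hB
      exact (scalar_iff B.toAddMonoidHom B fun v => rfl).1 (h1 _ ⟨B, hB, fun v => rfl⟩)
    · right
      rw [card_skew, card_toAddSub] at h1
      exact (finrank_le _ _).1 h1

theorem large_add (h : Pool.Agent.Q45.OI.IsLarge (linGroup Γ)) : IsLarge Γ where
  irreducible U hU := by
    rcases h.irr (AddSubgroup.toZModSubmodule 2 U) (fun e he v hv => hU (toAdd e) he v hv)
      with h1 | h1
    · left
      ext v
      exact SetLike.ext_iff.1 h1 v
    · right
      ext v
      exact SetLike.ext_iff.1 h1 v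
  scalar Γ' hΓ' hi A hA := by
    have h1 := h.scal (linGroup Γ') (fun e he => hΓ' he) (by
      have h2 : (linGroup Γ').relIndex (linGroup Γ) = Γ'.relIndex Γ := by
        have h3 := Subgroup.relIndex_comap Γ' (toAdd (V := V)) (linGroup Γ)
        rw [map_linGroup] at h3
        exact h3
      rw [h2]
      exact hi) (AddMonoidHom.toZModLinearMap 2 A) (fun e he v => hA (toAdd e) he v)
    exact (scalar_iff A _ fun v => rfl).2 h1
  skew := by
    intro β hβ U hU hst
    have h01 : ∀ c : ZMod 2, c = 0 ∨ c = 1 := by decide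
    have hz1 : ∀ w, β 0 w = 0 := by
      intro w
      have := hβ.add 0 0 w
      rw [add_zero] at this
      exact left_eq_add.1 this
    have hz2 : ∀ w, β w 0 = 0 := by
      intro w
      have := hβ.add' w 0 0
      rw [add_zero] at this
      exact left_eq_add.1 this
    let β' : V →ₗ[ZMod 2] V →ₗ[ZMod 2] ZMod 2 := LinearMap.mk₂ (ZMod 2) β hβ.add
      (fun c v w => by
        rcases h01 c with rfl | rfl
        · rw [zero_smul, zero_smul, hz1]
        · rw [one_smul, one_smul]) hβ.add'
      (fun c v w => by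
        rcases h01 c with rfl | rfl
        · rw [zero_smul, zero_smul, hz2]
        · rw [one_smul, one_smul])
    have hβ' : ∀ v w, β' v w = β v w := fun v w => rfl
    rcases h.skew β' hβ.alt hβ.nondegenerate (fun e he v w => hβ.inv (toAdd e) he v w)
        (toLinSub U) (fun B hB v => hU _ hB v) (fun e he B hB B' hB' =>
          hst (toAdd e) he _ hB _ hB') with h1 | h1
    · left
      intro A hA
      exact (scalar_iff A (AddMonoidHom.toZModLinearMap 2 A) fun v => rfl).2 (h1 _ hA)
    · right
      have h2 := (finrank_le _ _).2 h1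
      rw [card_toLinSub, ← card_skew] at h2
      exact h2

end convert

/-- The form as a bilinear map. -/
theorem exists_form {G M : Type} [Group G] [AddCommGroup M] [Module ℤ_[2] M]
    {A : G → (M →ₗ[ℤ_[2]] M) → Prop} {β : M → M → ℤ_[2]} (h : IsInvariantForm A β) :
    ∃ β' : M →ₗ[ℤ_[2]] M →ₗ[ℤ_[2]] ℤ_[2], ∀ x y, β' x y = β x y :=
  ⟨LinearMap.mk₂ ℤ_[2] β h.add h.smul (fun x y z => by rw [h.symm, h.add, h.symm y, h.symm z])
    (fun c x y => by rw [h.symm, h.smul, h.symm y]; rfl), fun x y => rfl⟩

theorem lems : Pool.Agent.Q45.OI.Lems :=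
  ⟨Pool.Agent.Q45.OI.KLA.lie1, Pool.Agent.Q45.OI.KLA.lie2, Pool.Agent.Q45.OI.KLA.lie3,
    Pool.Agent.Q45.OI.KLA.lie4, Pool.Agent.Q45.OI.KLA.lie5, Pool.Agent.Q45.OI.JORTH.main,
    Pool.Agent.Q45.OI.JLEMX.main, Pool.Agent.Q45.OI.KLC.red⟩

theorem openImage : OpenImage := by
  intro k k' K F L V _ _ _ hk' _ _ _ _ _ _ _ P _ _ _ _ _ _ cl Γ hcomp hP hV hΓ
  haveI : IsSepClosed k' := hk'.sep_closed
  haveI : Algebra.IsSeparable k k' := hk'.separable
  have hbr : IsBr P := ⟨hP.two, hP.monic, hP.odd, hP.separable, hP.smooth⟩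
  have hF' := isGeom_rat (K := K) (F := F) hcomp
  have h2V : ∀ v : V, 2 • v = 0 := by
    intro v
    obtain ⟨z, hz, rfl⟩ := hV.surj v
    have h1 : z * z ∈ squares L := ⟨z, pow_two z⟩
    rw [two_nsmul, ← hV.add z hz z hz, hV.zero _ (mul_mem hz hz)]
    exact h1
  letI : Module (ZMod 2) V := AddCommGroup.zmodModule h2V
  haveI : Module.Finite (ZMod 2) V := Module.Finite.of_finite
  refine with_dp (k' := k') (K := K) (F := F) hbr (Q := extendPoly k' P) rfl hcomp L ?_
  intro _ _ _ _ _ _ _ _ _ _ hgd a θ hfld hff hm hreg hfix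
  have hcon : ∀ x : k', algebraMap F L (algebraMap k'[X] F (C x)) =
      algebraMap (CurveRing k' P) L (AdjoinRoot.of _ (C x)) := by
    intro x
    rw [← IsScalarTower.algebraMap_apply k'[X] F L,
      IsScalarTower.algebraMap_apply k'[X] (CurveRing k' P) L]
    rfl
  have hauto : ∀ T : Sep F ≃ₐ[K] Sep F, ∃ e : L ≃+* L, Fixes K θ e ∧
      ∀ x : k', T (cs k' F x) = algebraMap L (Sep F) (e (algebraMap F L
        (algebraMap k'[X] F (C x)))) := by
    intro T
    obtain ⟨τ, hτ⟩ := exists_tau hF' T
    obtain ⟨e, he, he2⟩ := Pool.Agent.Q45.OI.exists_auto (P := P) (Q := extendPoly k' P) rfl L τ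
    refine ⟨e, (hfix e).1 he, fun x => ?_⟩
    rw [hτ, hcon, he2, ← hcon, ← IsScalarTower.algebraMap_apply F L (Sep F)]
    rfl
  have hset : autUnits k' P L = Pool.Agent.Q45.OI.auts K θ := by
    ext φ
    constructor
    · rintro ⟨e, he, rfl⟩
      exact ⟨e, (hfix e).1 he, rfl⟩
    · rintro ⟨e, he, rfl⟩
      exact ⟨e, (hfix e).2 he, rfl⟩
  have hV' : Pool.Agent.Q45.OI.IsImg (sqS L) (evS (CurveRing k' P) L)
      (Pool.Agent.Q45.OI.auts K θ) cl (linGroup Γ) := by
    rw [← hset]
    refine ⟨hV.add, hV.zero, hV.surj, fun e he => ?_, fun g hg => hV.ofGroup _ hg⟩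
    obtain ⟨g, hg, h1⟩ := hV.toGroup e he
    exact ⟨toLin g, by rw [mem_linGroup, toAdd_toLin]; exact hg, h1⟩
  obtain ⟨h1, h2, h3⟩ := Pool.Agent.Q45.OI.core_oi (S := CurveRing k' P) k'[X] hgd lems hF' hff hm
    hreg hfld hauto hV' (large_lin hΓ)
  haveI i1 : Module.Finite ℤ_[2] (SelT (F := F) 2 k'[X] (fPoly P K) 2) := h1
  haveI i2 : Module.Free ℤ_[2] (SelT (F := F) 2 k'[X] (fPoly P K) 2) := h2
  have hind := acts_iff (K := K) (F := F) hF' (fPoly P K)
  refine ⟨SelT (F := F) 2 k'[X] (fPoly P K) 2, inferInstance, inferInstance, i1, i2,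
    clsOf k'[X] (fPoly P K), classMap, fun T => ⟨rho k'[X] hF' (fPoly P K) T, (hind T _).2 rfl⟩, ?_⟩
  intro β hβ
  obtain ⟨β', hβ'⟩ := exists_form hβ
  rcases h3 β' (by
      rintro rfl
      obtain ⟨x, y, hxy⟩ := hβ.ne
      exact hxy (hβ' x y).symm) (fun x y => (hβ' x y).trans ((hβ.symm x y).trans (hβ' y x).symm))
    (fun T x y => (hβ' _ _).trans ((hβ.inv T _ ((hind T _).2 rfl) x y).trans (hβ' x y).symm)) with
    h4 | h4
  · left
    intro T φ hφ hm4 m
    rw [(hind T φ).1 hφ] at hm4 ⊢
    have h5 := h4 T fun m => by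
      obtain ⟨m', hm'⟩ := hm4 m
      exact ⟨m', hm'.trans (congrArg (fun c : ℤ_[2] => c • m') (by norm_num : (4 : ℤ_[2]) = 2 ^ 2))⟩
    exact LinearMap.congr_fun h5 m
  · right
    intro E _
    obtain ⟨j, hj⟩ := h4 E
    refine ⟨j, fun α hα hα1 n => ?_⟩
    obtain ⟨T, hT, h5⟩ := hj α (fun x y => (hβ' _ _).trans ((hα x y).trans (hβ' x y).symm)) hα1 n
    exact ⟨T, hT, rho k'[X] hF' (fPoly P K) T, (hind T _).2 rfl, h5⟩

theorem transvections : Transvections := by
  intro V _ _ Γ h
  obtain ⟨h6, q, hq, ht⟩ := h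
  have hss : ∀ c : ZMod 2, c + c = 0 := by decide
  have h2V : ∀ v : V, 2 • v = 0 := by
    intro v
    rw [two_nsmul]
    refine hq.nondegenerate _ fun w => ?_
    rw [hq.add, hss]
  letI : Module (ZMod 2) V := AddCommGroup.zmodModule h2V
  haveI : Module.Finite (ZMod 2) V := Module.Finite.of_finite
  have h01 : ∀ c : ZMod 2, c = 0 ∨ c = 1 := by decide
  have hsym : ∀ x y, polarForm q x y = polarForm q y x := by
    intro x y
    unfold polarForm
    rw [add_comm x y]
    ring
  have hpz : ∀ y, polarForm q 0 y = 0 := by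
    intro y
    have h1 := hq.add 0 0 y
    rw [add_zero] at h1
    exact left_eq_add.1 h1
  have hpz' : ∀ y, polarForm q y 0 = 0 := fun y => by rw [hsym, hpz]
  have hq0 : q 0 = 0 := by
    have h1 := hpz 0
    unfold polarForm at h1
    rw [add_zero, hss, zero_add] at h1
    exact h1
  have hadd' : ∀ x y z, polarForm q x (y + z) = polarForm q x y + polarForm q x z := by
    intro x y z
    rw [hsym, hq.add, hsym y, hsym z]
  let Q : QuadraticForm (ZMod 2) V := QuadraticMap.ofPolar q
    (fun a x => by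
      rcases h01 a with rfl | rfl
      · rw [zero_smul, hq0]; simp
      · rw [one_smul]; simp)
    (fun x x' y => by
      have h1 := hq.add x x' y
      unfold polarForm at h1
      unfold QuadraticMap.polar
      have e1 := hss (q (x + x'))
      have e2 := hss (q y)
      have e3 := hss (q (x + y))
      have e4 := hss (q (x' + y))
      have e5 := hss (q x)
      have e6 := hss (q x')
      linear_combination h1 - e1 + e5 + e6 + e2)
    (fun a x y => by
      rcases h01 a with rfl | rfl
      · rw [zero_smul, zero_smul]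
        unfold QuadraticMap.polar
        rw [zero_add, hq0]
        ring
      · rw [one_smul, one_smul])
  have hQ : ∀ v, Q v = q v := fun v => rfl
  have hpol : ∀ x y, QuadraticMap.polar Q x y = polarForm q x y := by
    intro x y
    unfold QuadraticMap.polar polarForm
    rw [hQ, hQ, hQ]
    have e1 := hss (q x)
    have e2 := hss (q y)
    linear_combination -e1 - e2
  have hfr : 6 ≤ Module.finrank (ZMod 2) V := by
    rw [Module.natCard_eq_pow_finrank (K := ZMod 2) (V := V), Nat.card_zmod] at h6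
    exact (Nat.pow_le_pow_iff_right (by norm_num : 1 < 2)).1 (by
      show 2 ^ 6 ≤ 2 ^ _
      exact h6)
  refine large_add (Pool.Agent.Q45.OI.JLARGE.main V Q hfr
    (fun v hv => hq.nondegenerate v fun w => by rw [← hpol]; exact hv w) (linGroup Γ) ?_)
  intro v hv
  obtain ⟨t, ht1, ht2⟩ := ht v hv
  refine ⟨toLin t, by rw [mem_linGroup, toAdd_toLin]; exact ht1, fun x => ?_⟩
  rw [toLin_apply, ht2, hpol]
  rcases h01 (polarForm q x v) with h1 | h1
  · rw [if_pos h1, h1, zero_smul, add_zero]
  · rw [if_neg (by rw [h1]; decide), h1, one_smul]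

/-- **Open image for double planes with a large Galois group on the branch curve.** -/
theorem result : OpenImage ∧ Transvections := ⟨openImage, transvections⟩

end Pool.Agent.Results.MP_c1bb77_ag.OpenImageDoublePlanes
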