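import Pool.Agent.Q60.GL.Final

/-!
# The Mumford-Tate conjecture is a statement on the endomorphisms of the tensor square

Let `X` be a smooth projective variety over a number field `k` embedded in the complex numbers,
`i` a natural number, `ℓ` a prime number, `V = H^i(X_ℂ, ℚ)` with a basis indexed by `κ`, `Q` the
matrix of a rational polarisation of the Hodge structure `V` (defined by the cup product, a
polarisation of `X` and the Lefschetz decomposition) and `ρ` the representation of the absolute
Galois group `Γ` of `k` on `V_ℓ = H^i(X̄, ℚ_ℓ) = V ⊗ ℚ_ℓ`. The group acts by similitudes of `Q`, and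
by Deligne's theorem (the Weil conjectures) the eigenvalues of a Frobenius element at a place of
good reduction have all the same absolute value, which is not `1` if `i ≠ 0`. So all hypotheses of
the following theorem are satisfied, for all `X`, `i` and `ℓ`.

**Theorem.** The Mumford-Tate conjecture `G_ℓ° = MT(V)_{ℚ_ℓ}` holds if and only if

* the representation `V_ℓ` is semisimple,
* the endomorphisms of the Hodge structure `V ⊗ V` commute with a subgroup of finite index of `Γ`,
* the endomorphisms of `V_ℓ ⊗ V_ℓ` which commute with a subgroup of finite index of `Γ` are
  `ℚ_ℓ`-combinations of endomorphisms of the Hodge structure `V ⊗ V`, and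
* (up to a finite index) `G_ℓ°` and `MT(V)` contain the same elements of the centre of the algebra
  of the endomorphisms of the Hodge structure `V`.

If this centre is a product of totally real fields then the last condition may be omitted; moreover,
the inclusion `G_ℓ° ⊂ MT(V)` is then equivalent to the second condition alone (without any
semisimplicity), and the inclusion `MT(V) ⊂ G_ℓ°` is equivalent to the third condition alone if
`V_ℓ` is semisimple.

The groups here are the actual algebraic groups: the Mumford-Tate group is the smallest algebraic
subgroup over `ℚ` whose complex points contain the image of `ℂ^×`, and `G_ℓ°` is the intersection of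
the Zariski closures of the images of the subgroups of finite index of `Γ`.

The proof uses the Lie algebras `h` and `g` of the two groups (more precisely, their skew parts) as
subspaces of `End V = V ⊗ V`. The projector of `End V` onto `h` which is given by the polarisation
is an endomorphism of the Hodge structure `V ⊗ V`, and `End V` is a semisimple `g`-module
(Chevalley), so that there is a projector onto `g` which commutes with `g`; these projectors are
compared with the help of the conditions on `V ⊗ V`. They show that `[g, g] = [h, h]`. The Lie
algebra `h` is perfect if the centre is totally real (positivity of the trace form). The theorem for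
the groups follows from that for the Lie algebras: a matrix which commutes with all homomorphisms of
Hodge structures between tensor powers belongs to the Mumford-Tate group (double centraliser theorem
for all tensors of bounded degree), and the Lie algebra of `G_ℓ` contains the homotheties because
there is a pure Frobenius element.
-/

namespace Pool.Agent.Results.MP_c1bb77_ag.TensorSquareDecides

open Pool.Agent.Q60.GL

variable {κ : Type} [Fintype κ] [DecidableEq κ] {w : ℤ} {ℓ : ℕ} [Fact ℓ.Prime] {Γ : Type}
  [Group Γ]

/-- **The Mumford-Tate conjecture is a statement on the endomorphisms of the tensor square.** -/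
theorem result (V : HodgeStructure κ w) (Q : Matrix κ κ ℚ) (hQ : IsPolarisation V Q)
    (ρ : Γ →* Matrix κ κ ℚ_[ℓ]) (hρ : Similitudes w Q ρ) (hpure : w ≠ 0 → HasPureElement ρ) :
    (MumfordTateConjecture V.h ρ ↔
      Semisimple ρ ∧ HodgeIsTate V ρ ∧ TateIsHodge V ρ ∧ CentralCondition V ρ) ∧
    (TotallyRealCentre V Q →
      (MumfordTateConjecture V.h ρ ↔ Semisimple ρ ∧ HodgeIsTate V ρ ∧ TateIsHodge V ρ) ∧
      (MonodromyInMumfordTate V.h ρ ↔ HodgeIsTate V ρ) ∧
      (Semisimple ρ → (MumfordTateInMonodromy V.h ρ ↔ TateIsHodge V ρ))) :=
  ⟨mtc_gen_iff hQ hρ hpure, fun htr => ⟨mtc_tr_iff hQ hρ hpure htr, mon_iff hQ hρ htr,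
    fun hss => mt_iff hQ hρ hpure htr hss⟩⟩

end Pool.Agent.Results.MP_c1bb77_ag.TensorSquareDecides
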